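import Mathlib
import Pool.Agent.T2H54.Mip2.P4
import Pool.Agent.T2H54.Mip2.P6
import Pool.Agent.T2H54.Mip2.P6b
import Pool.Agent.T2H54.Mip2.LA7
import Pool.Agent.T2H54.Mip2.LA8
import Pool.Agent.Results.MP_8bb7de_al.OddPrimeAllFields

/-!
# MP_8bb7de_al: the modular isomorphism problem over all fields when `D_3(G) = 1`

Let `p` be any prime and `G` a finite group whose third dimension subgroup `D_3(G)` over a field of
characteristic `p` is trivial. If `F` is any field of characteristic `p` and `H` any group with
`FG ≅ FH` as `F`-algebras, then `G ≅ H`. This answers the question in the affirmative.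

For odd `p` this is the theorem of the file `OddPrimeAllFields`. The case `p = 2` is new here. Put
`V = G / Φ(G)`, `W = Φ(G)` (an elementary abelian central subgroup) and let `q : V → W` be the
squaring map. An isomorphism `FG ≅ FH` gives a matrix `M` over `F` with `H / Φ(H) = M V` inside
`F ⊗ V` and `D = fr M * M⁻¹` maps the quadratic map `q` over `F` to a linear function of `q`. The
proof shows that `D` is joined to `1` by a polynomial path of such matrices. The information on `D`
comes from the derivations `h ↦ x(h) h` of `FH = FG`, `x : H → F_2` a homomorphism, from the class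
sums of `G` and from a Poisson bracket on the group algebra of `V`. By a specialisation argument
for power series (in place of Lang's theorem) the path gives `G ≅ H`.
-/

set_option autoImplicit false

universe u v w

namespace Pool.Agent.Results.MP_8bb7de_al.AllPrimesAllFields

open MonoidAlgebra

/-- The augmentation ideal `Δ(FG)`, the kernel of the algebra map `FG → F` which sends every group
element to `1` (a subspace of `FG`; its powers are spanned by products). -/
noncomputable def Delta (F : Type*) [Field F] (G : Type*) [Group G] :
    Submodule F (MonoidAlgebra F G) :=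
  LinearMap.ker (MonoidAlgebra.lift F F G (1 : G →* F)).toLinearMap

/-- The `n`-th dimension subgroup `D_n(G) = G ∩ (1 + Δ(FG)^n)`, as a set. -/
def D (F : Type*) [Field F] (G : Type*) [Group G] (n : ℕ) : Set G :=
  {g | single g (1 : F) - 1 ∈ Delta F G ^ n}

/-- The modular isomorphism problem over all fields for groups with `D_3(G) = 1`: if `p` is a prime
and `G` a finite group with `D_3(G) = 1` (computed over some field `K` of characteristic `p`), then
for every field `F` of characteristic `p` and every group `H`, `FG ≅ FH` implies `G ≅ H`. -/
theorem result (p : ℕ) [Fact p.Prime] (G : Type u) [Group G] [Finite G]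
    (K : Type*) [Field K] [CharP K p] (hD : D K G 3 = {1})
    (F : Type*) [Field F] [CharP F p] (H : Type*) [Group H]
    (e : Nonempty (MonoidAlgebra F G ≃ₐ[F] MonoidAlgebra F H)) : Nonempty (G ≃* H) := by
  by_cases hp : p = 2
  · subst hp
    refine Pool.Agent.T2H54.Mip2.final2 K hD ?_ e
    intro alg n m B hnd d
    obtain ⟨c, D', hM⟩ := Pool.Agent.T2H54.Mip2.P4 hnd d
    obtain ⟨h, hmax⟩ := Pool.Agent.T2H54.Mip2.exists_hyp B F
    have hiso := Pool.Agent.T2H54.Mip2.LA_of_G2' hnd D' hmax (D'.G2' hmax)
    rw [hM] at hiso
    exact Pool.Agent.T2H54.Mip2.P6b hnd d c hiso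
  · exact Pool.Agent.Results.MP_8bb7de_al.OddPrimeAllFields.result p hp G K hD F H e

end Pool.Agent.Results.MP_8bb7de_al.AllPrimesAllFields
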